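import Pool.Agent.Run7.h678.Sat.Glob

set_option autoImplicit false

namespace Pool.Agent.Results.MP_466853_co.SaturatedTriples

open Finset

/-- `T` is a family of triples such that every four vertices contain a member of `T`
(equivalently, the complementary 3-graph has no complete 3-graph on four vertices). -/
def Covering {V : Type} [DecidableEq V] (T : Finset (Finset V)) : Prop :=
  (∀ t ∈ T, t.card = 3) ∧ ∀ S : Finset V, S.card = 4 → ∃ t ∈ T, t ⊆ S

/-- The defects of a triple `B`: the vertices `x` outside `B` for which it is not true that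
`B` is no member of `T` and `B` together with `x` contains exactly one member of `T`. -/
def defects {V : Type} [Fintype V] [DecidableEq V] (T : Finset (Finset V)) (B : Finset V) :
    Finset V :=
  univ.filter (fun x => x ∉ B ∧ ¬ (B ∉ T ∧ (T.filter (fun t => t ⊆ insert x B)).card = 1))

/-- The conjectured value of the Turan number `t(n)`: the number of edges of the construction
of Turan on `n` vertices. -/
def turanNumber (n : ℕ) : ℕ :=
  if n % 3 = 0 then (n / 3) * (n / 3 - 1) * (2 * (n / 3) - 1)
  else if n % 3 = 1 then (n / 3) ^ 2 * (2 * (n / 3) - 1)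
  else (n / 3) ^ 2 * (2 * (n / 3) + 1)

theorem turan0 (r : ℕ) : ((turanNumber (3 * r) : ℕ) : ℤ) = 2 * r ^ 3 - 3 * r ^ 2 + r := by
  rcases r with _ | r
  · simp [turanNumber]
  · have h1 : 3 * (r + 1) % 3 = 0 := by omega
    have h2 : 3 * (r + 1) / 3 = r + 1 := by omega
    have h3 : 2 * (r + 1) - 1 = 2 * r + 1 := by omega
    simp only [turanNumber, h1, h2, h3, if_true, Nat.add_sub_cancel]
    push_cast
    ring

theorem turan1 (r : ℕ) : ((turanNumber (3 * r + 1) : ℕ) : ℤ) = 2 * r ^ 3 - r ^ 2 := by
  rcases r with _ | r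
  · simp [turanNumber]
  · have h1 : (3 * (r + 1) + 1) % 3 = 1 := by omega
    have h2 : (3 * (r + 1) + 1) / 3 = r + 1 := by omega
    have h3 : 2 * (r + 1) - 1 = 2 * r + 1 := by omega
    simp only [turanNumber, h1, h2, h3, if_true]
    push_cast
    ring

theorem turan2 (r : ℕ) : ((turanNumber (3 * r + 2) : ℕ) : ℤ) = 2 * r ^ 3 + r ^ 2 := by
  have h1 : (3 * r + 2) % 3 = 2 := by omega
  have h2 : (3 * r + 2) / 3 = r := by omega
  simp only [turanNumber, h1, h2]
  push_cast
  ring

theorem dd_sum {V : Type} [Fintype V] [DecidableEq V] (T : Finset (Finset V)) (B : Finset V) :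
    ∑ x : V, Run7.h678.Sat.dd T B x = (defects T B).card := by
  rw [defects, card_filter]
  refine sum_congr rfl fun x _ => ?_
  unfold Run7.h678.Sat.dd Run7.h678.Sat.Good
  congr

theorem result :
    -- (1) the inequality with defects, for every covering family and all disjoint triples
    (∀ (V : Type) [Fintype V] [DecidableEq V] (T : Finset (Finset V)), Covering T →
      ∀ (r s : ℕ) (B : Fin r → Finset V), (∀ i, (B i).card = 3) →
      (∀ i j, i ≠ j → Disjoint (B i) (B j)) → Fintype.card V = 3 * r + s →
      12 * r ^ 3 + 12 * r ^ 2 * s + 3 * r * s ^ 2 + 6 * r ≤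
        6 * T.card + 24 * (3 * r + s) * ∑ i, (defects T (B i)).card + 18 * r ^ 2 + 9 * r * s) ∧
    -- (2) the exact Turan number when all but at most three vertices are in saturated triples
    (∀ (V : Type) [Fintype V] [DecidableEq V] (T : Finset (Finset V)), Covering T →
      ∀ (r : ℕ) (B : Fin r → Finset V), (∀ i, (B i).card = 3) →
      (∀ i j, i ≠ j → Disjoint (B i) (B j)) → Fintype.card V ≤ 3 * r + 3 →
      (∀ i, defects T (B i) = ∅) → turanNumber (Fintype.card V) ≤ T.card) ∧
    -- (3) the density bound 4/9
    (∀ (V : Type) [Fintype V] [DecidableEq V] (T : Finset (Finset V)), Covering T →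
      ∀ (r s : ℕ) (B : Fin r → Finset V), (∀ i, (B i).card = 3) →
      (∀ i j, i ≠ j → Disjoint (B i) (B j)) → Fintype.card V = 3 * r + s →
      4 * Fintype.card V ^ 3 ≤ 54 * T.card +
        216 * Fintype.card V * ∑ i, (defects T (B i)).card + 27 * Fintype.card V ^ 2 +
        4 * Fintype.card V * s ^ 2) := by
  have key : ∀ (V : Type) [Fintype V] [DecidableEq V] (T : Finset (Finset V)), Covering T →
      ∀ (r s : ℕ) (B : Fin r → Finset V), (∀ i, (B i).card = 3) →
      (∀ i j, i ≠ j → Disjoint (B i) (B j)) → Fintype.card V = 3 * r + s →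
      (12 * r ^ 3 + 12 * r ^ 2 * s + 3 * r * s ^ 2 + 6 * r : ℤ) ≤
        6 * T.card + 24 * (3 * r + s) * ∑ i, ((defects T (B i)).card : ℤ) + 18 * r ^ 2 +
          9 * r * s := by
    intro V _ _ T hT r s B hB hdis hs
    have h := Run7.h678.Sat.main (T := T) hT hB hdis s hs
    have e : (∑ i, ∑ x : V, (Run7.h678.Sat.dd T (B i) x : ℤ)) =
        ∑ i, ((defects T (B i)).card : ℤ) := by
      refine sum_congr rfl fun i _ => ?_
      rw [← dd_sum]
      push_cast
      rfl
    push_cast at h
    rw [e] at h
    exact h
  refine ⟨?_, ?_, ?_⟩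
  · intro V _ _ T hT r s B hB hdis hs
    have := key V T hT r s B hB hdis hs
    zify
    exact this
  · intro V _ _ T hT r B hB hdis hs hD
    have hU : (univ.biUnion B).card = 3 * r := by
      rw [card_biUnion (fun i _ j _ h => hdis i j h), sum_congr rfl (fun i _ => hB i), sum_const,
        card_univ, Fintype.card_fin, smul_eq_mul, mul_comm]
    have hle : 3 * r ≤ Fintype.card V := by rw [← hU]; exact card_le_univ _
    obtain ⟨s, hs'⟩ := Nat.exists_eq_add_of_le hle
    have hs3 : s ≤ 3 := by omega
    have := key V T hT r s B hB hdis hs'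
    simp only [hD, card_empty, Nat.cast_zero, sum_const_zero, mul_zero, add_zero] at this
    rw [hs']
    zify
    interval_cases s
    · have e := turan0 r
      push_cast at this e ⊢
      rw [add_zero, e]; nlinarith
    · have e := turan1 r
      push_cast at this e ⊢
      rw [e]; nlinarith
    · have e := turan2 r
      push_cast at this e ⊢
      rw [e]; nlinarith
    · have e := turan0 (r + 1)
      rw [show 3 * (r + 1) = 3 * r + 3 by ring] at e
      push_cast at this e ⊢
      rw [e]; nlinarith
  · intro V _ _ T hT r s B hB hdis hs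
    have h := key V T hT r s B hB hdis hs
    have hD : (0 : ℤ) ≤ ∑ i, ((defects T (B i)).card : ℤ) := by positivity
    rw [hs]
    zify
    have h1 : (0 : ℤ) ≤ r := by positivity
    have h2 : (0 : ℤ) ≤ s := by positivity
    nlinarith [mul_nonneg h1 h1, mul_nonneg h1 h2, mul_nonneg h2 h2,
      mul_nonneg (mul_nonneg h1 h2) h2]

end Pool.Agent.Results.MP_466853_co.SaturatedTriples
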